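import Pool.Agent.Helper61.P3.St2

/-!
# Project P3 (MP_cb927e_an), module WIK: one class, one window, one scale
-/

set_option autoImplicit false

open MeasureTheory Set Filter Topology
open scoped ENNReal RealInnerProductSpace

namespace Pool.Agent.Helper44.P3

open Pool.Agent.Helper61.P3 Pool.Agent.Helper20.RG Pool.Agent.Helper20.EQ
open Pool.Agent.Helper68.LM (Pl BB Bd Av HL ft fm DQ)
open Pool.Agent.Helper68.EP (elt GapP)

theorem wik_ct_cont : Continuous ct := by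
  unfold ct
  fun_prop

theorem wik_ct_lip (x y : ℝ) : |ct x - ct y| ≤ 8 * |x - y| := by
  unfold ct
  have h1 : |max 0 (min 1 (8 * x - 2)) - max 0 (min 1 (8 * y - 2))| ≤
      |min 1 (8 * x - 2) - min 1 (8 * y - 2)| := by
    have := abs_max_sub_max_le_abs (min 1 (8 * x - 2)) (min 1 (8 * y - 2)) (0 : ℝ)
    rw [max_comm 0 (min 1 (8 * x - 2)), max_comm 0 (min 1 (8 * y - 2))]
    exact this
  have h2 : |min 1 (8 * x - 2) - min 1 (8 * y - 2)| ≤ |(8 * x - 2) - (8 * y - 2)| := by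
    have := abs_min_sub_min_le_max (1 : ℝ) (8 * x - 2) 1 (8 * y - 2)
    simpa using this
  have h3 : (8 * x - 2) - (8 * y - 2) = 8 * (x - y) := by ring
  rw [h3, abs_mul, abs_of_pos (by norm_num : (0 : ℝ) < 8)] at h2
  exact h1.trans h2

theorem wik_ct_range (t : ℝ) : 0 ≤ ct t ∧ ct t ≤ 1 := by
  unfold ct
  refine ⟨le_max_left _ _, max_le (by norm_num) (min_le_left _ _)⟩

theorem wik_pr_shift (s : ℝ) (y y' : Pl) (h : pr s y = pr s y') :
    y' = y + (y' 0 - y 0) • E s := by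
  unfold pr at h
  ext i
  fin_cases i
  · simp [E, pt]
  · simp [E, pt]
    linarith

/-- the ridge property of one chord operator -/
theorem wik_ridge (hYC : StYC) (φ τ : ℝ → ℝ) (c : Pl) (hG : Graph φ τ) (u q : ℕ) (η : ℝ) (k : ℤ)
    (g : Pl → ℝ) (hq : 6 ≤ q) (hη : (2 : ℝ) ^ (-(q : ℤ)) ≤ η) (hg : BB g) (hg1 : ∀ x, 0 ≤ g x ∧ g x ≤ 1)
    (j : ℕ) (y y' : Pl) (hy : |y 0 - y' 0| ≤ 24 * (2 : ℝ) ^ (k + 28 * (q : ℤ)))
    (hp : pr (sl τ u j) y = pr (sl τ u j) y') :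
    |Zc c φ τ u (32 * q) k j g y - Zc c φ τ u (32 * q) k j g y'| ≤ 48 * (2 : ℝ) ^ (-(4 * (q : ℤ))) ∧
      48 * (2 : ℝ) ^ (-(4 * (q : ℤ))) ≤ η / 16 := by
  have hs : |sl τ u j| ≤ 1 := hG.1 _
  have h2 : (0 : ℝ) < (2 : ℝ) ^ (32 * q) := by positivity
  have h1 := (hYC (sl τ u j) (ce c φ u j) (mm τ u j) (mp τ u j) ((2 : ℝ) ^ (32 * q)) k g hs h2 hg).2
    hg1 y (y' 0 - y 0)
  rw [← wik_pr_shift _ _ _ hp] at h1
  constructor
  · have e1 : |Zc c φ τ u (32 * q) k j g y - Zc c φ τ u (32 * q) k j g y'| =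
        |Z (sl τ u j) (ce c φ u j) (mm τ u j) (mp τ u j) ((2 : ℝ) ^ (32 * q)) k g y' -
          Z (sl τ u j) (ce c φ u j) (mm τ u j) (mp τ u j) ((2 : ℝ) ^ (32 * q)) k g y| := by
      rw [abs_sub_comm]; rfl
    rw [e1]
    refine h1.trans ?_
    have hk : (0 : ℝ) < (2 : ℝ) ^ k := by positivity
    rw [div_le_iff₀ (by positivity)]
    have e2 : (48 : ℝ) * (2 : ℝ) ^ (-(4 * (q : ℤ))) * ((2 : ℝ) ^ k * (2 : ℝ) ^ (32 * q)) =
        48 * (2 : ℝ) ^ (k + 28 * (q : ℤ)) := by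
      rw [← zpow_natCast (2 : ℝ) (32 * q), ← zpow_add₀ (by norm_num : (2 : ℝ) ≠ 0), mul_assoc,
        ← zpow_add₀ (by norm_num : (2 : ℝ) ≠ 0)]
      congr 2
      push_cast
      ring
    rw [e2]
    have : |y' 0 - y 0| ≤ 24 * (2 : ℝ) ^ (k + 28 * (q : ℤ)) := by rw [abs_sub_comm]; exact hy
    linarith
  · have e3 : (2 : ℝ) ^ (-(4 * (q : ℤ))) = (2 : ℝ) ^ (-(q : ℤ)) * (2 : ℝ) ^ (-(3 * (q : ℤ))) := by
      rw [← zpow_add₀ (by norm_num : (2 : ℝ) ≠ 0)]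
      congr 1
      ring
    have e4 : (2 : ℝ) ^ (-(3 * (q : ℤ))) ≤ (2 : ℝ) ^ (-(10 : ℤ)) := by
      apply zpow_le_zpow_right₀ (by norm_num)
      omega
    have e5 : (2 : ℝ) ^ (-(10 : ℤ)) = 1 / 1024 := by norm_num
    have e6 : (0 : ℝ) < (2 : ℝ) ^ (-(q : ℤ)) := by positivity
    rw [e3]
    have : (2 : ℝ) ^ (-(q : ℤ)) * (2 : ℝ) ^ (-(3 * (q : ℤ))) ≤ η * (1 / 1024) := by
      apply mul_le_mul hη (by rw [← e5]; exact e4) (by positivity) (by linarith)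
    have hη0 : 0 < η := by linarith
    linarith

/-- one class, one window, one scale -/
theorem hWIK (hYC : Pool.Agent.Helper20.RG.StYC) (hYB : Pool.Agent.Helper20.RG.StYB)
    (hWT : Pool.Agent.Helper20.EQ.StWT)
    (hRDT : Pool.Agent.Helper61.P3.StRDT) :
    Pool.Agent.Helper61.P3.StWIK := by
  obtain ⟨C, hC, hR⟩ := hRDT
  intro φ τ A c hG hA hgap
  refine ⟨max C 1, le_max_right _ _, ?_⟩
  intro u q v₀ η D m k g R hu huq hv₀ hv₀u hηq hη1 hg hg1 hm hD hDm hnn hRR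
  have hq : 6 ≤ q := by omega
  have hη0 : 0 < η := lt_of_lt_of_le (by positivity) hηq
  have h2w : (0 : ℝ) < (2 : ℝ) ^ (32 * q) := by positivity
  have hs : ∀ j, |sl τ u j| ≤ 1 := fun j => hG.1 _
  have hZc : ∀ j, Continuous (Zc c φ τ u (32 * q) k j g) := by
    intro j
    have a1 := (hYC (sl τ u j) (ce c φ u j) (mm τ u j) (mp τ u j) ((2 : ℝ) ^ (32 * q)) k g (hs j) h2w hg).1
    have a2 := (hYC (sl τ u j) (ce c φ u j) (mp τ u j) (mp τ u j) ((2 : ℝ) ^ (32 * q)) k g (hs j) h2w hg).1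
    exact a1.sub a2
  have hZs : ∀ j, ∃ K : ℝ, ∀ x : Pl, K < ‖x‖ → Zc c φ τ u (32 * q) k j g x = 0 := by
    intro j
    obtain ⟨_, K1, _, hK1⟩ := (hYB (sl τ u j) (ce c φ u j) (mm τ u j) ((2 : ℝ) ^ (32 * q)) k g (hs j) h2w hg).1
    obtain ⟨_, K2, _, hK2⟩ := (hYB (sl τ u j) (ce c φ u j) (mp τ u j) ((2 : ℝ) ^ (32 * q)) k g (hs j) h2w hg).1
    refine ⟨max K1 K2, fun x hx => ?_⟩
    have b1 := hK1 x (lt_of_le_of_lt (le_max_left _ _) hx)
    have b2 := hK2 x (lt_of_le_of_lt (le_max_right _ _) hx)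
    show Y _ _ _ _ _ _ _ - Y _ _ _ _ _ _ _ = 0
    rw [b1, b2, sub_zero]
  have hLpos : (0 : ℝ) < (2 : ℝ) ^ (k + 28 * (q : ℤ)) := by positivity
  have hmain := hR (2 ^ u) (sl τ u) (fun j => pr (sl τ u j) ((2 : ℝ) ^ k • ce c φ u j))
    (fun j => bz c φ τ u (32 * q) η k j g) (fun j => {x | 7 * η / 16 < |Zc c φ τ u (32 * q) k j g x|})
    (Ez c φ τ u (32 * q) η k g) (k + 20 * (q : ℤ)) (k + 24 * (q : ℤ)) k ((2 : ℝ) ^ (k + 28 * (q : ℤ)))
    D m (m / 200) (384 * (2 : ℝ) ^ (-(4 * (q : ℤ))) / η) q v₀ u (Wv τ u) R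
    ?_ ?_ ?_ hLpos (by omega) (by omega) (by omega) ?_ ?_ ?_ ?_ (by omega) ?_ ?_ (by positivity) ?_
    (by linarith) hm hD hDm ?_
  · refine hmain.trans ?_
    have hm0 : (0 : ℝ) < m := by linarith
    have c1 : C * D / m ^ 3 * (2 : ℝ) ^ v₀ ≤ max C 1 * D / m ^ 3 * (2 : ℝ) ^ v₀ := by
      gcongr
      exact le_max_left _ _
    have c2 : C * D ^ 2 / m ^ 4 ≤ max C 1 * D ^ 2 / m ^ 4 := by
      gcongr
      exact le_max_left _ _
    exact add_le_add (mul_le_mul_left (ENNReal.ofReal_le_ofReal c1) _)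
      (mul_le_mul_left (ENNReal.ofReal_le_ofReal c2) _)
  · -- the functions `b j`
    intro j _
    refine ⟨hs j, ?_, ?_, fun y => wik_ct_range _⟩
    · exact wik_ct_cont.comp ((continuous_abs.comp (hZc j)).div_const η)
    · obtain ⟨K, hK⟩ := hZs j
      refine HasCompactSupport.intro (isCompact_closedBall (0 : Pl) K) (fun x hx => ?_)
      have hx' : K < ‖x‖ := by
        simpa [Metric.mem_closedBall, dist_zero_right] using hx
      show ct (|Zc c φ τ u (32 * q) k j g x| / η) = 0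
      rw [hK x hx']
      simp [ct]
  · intro j _
    refine ⟨isOpen_lt continuous_const (continuous_abs.comp (hZc j)), ?_⟩
    exact (isOpen_lt continuous_const (continuous_abs.comp (hZc j))).measurableSet
  · -- ridge property
    intro j _ y y' hy hp
    obtain ⟨r1, r2⟩ := wik_ridge hYC φ τ c hG u q η k g hq hηq hg hg1 j y y' hy hp
    have r3 : |(|Zc c φ τ u (32 * q) k j g y|) - (|Zc c φ τ u (32 * q) k j g y'|)| ≤
        48 * (2 : ℝ) ^ (-(4 * (q : ℤ))) := (abs_abs_sub_abs_le_abs_sub _ _).trans r1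
    have r4 := abs_le.1 (r3.trans r2)
    refine ⟨fun h => ?_, fun h => ?_, ?_⟩
    · have h' : 7 * η / 16 < |Zc c φ τ u (32 * q) k j g y| := h
      have h3 : 3 * η / 8 < |Zc c φ τ u (32 * q) k j g y'| := by linarith [r4.2]
      show 1 / 2 < ct (|Zc c φ τ u (32 * q) k j g y'| / η)
      have h4 : 3 / 8 < |Zc c φ τ u (32 * q) k j g y'| / η := by
        rw [lt_div_iff₀ hη0]; linarith
      unfold ct
      apply lt_max_of_lt_right
      apply lt_min <;> linarith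
    · have h' : 0 < ct (|Zc c φ τ u (32 * q) k j g y| / η) := h
      show η / 8 < |Zc c φ τ u (32 * q) k j g y'|
      unfold ct at h'
      have h3 : 1 / 4 < |Zc c φ τ u (32 * q) k j g y| / η := by
        by_contra hcon
        rw [not_lt] at hcon
        have : min 1 (8 * (|Zc c φ τ u (32 * q) k j g y| / η) - 2) ≤ 0 :=
          (min_le_right _ _).trans (by linarith)
        rw [max_eq_left this] at h'
        exact lt_irrefl _ h'
      rw [lt_div_iff₀ hη0] at h3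
      linarith [r4.2]
    · show |ct (|Zc c φ τ u (32 * q) k j g y| / η) - ct (|Zc c φ τ u (32 * q) k j g y'| / η)| ≤ _
      refine (wik_ct_lip _ _).trans ?_
      rw [← sub_div, abs_div, abs_of_pos hη0, mul_div_assoc', div_le_div_iff_of_pos_right hη0]
      linarith
  · have e1 : (2 : ℝ) ^ (-(q : ℤ)) * (2 : ℝ) ^ (k + 24 * (q : ℤ)) =
        (2 : ℝ) ^ (3 * (q : ℤ)) * (2 : ℝ) ^ (k + 20 * (q : ℤ)) := by
      rw [← zpow_add₀ (by norm_num : (2 : ℝ) ≠ 0), ← zpow_add₀ (by norm_num : (2 : ℝ) ≠ 0)]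
      congr 1
      ring
    rw [e1]
    apply mul_le_mul_of_nonneg_right _ (by positivity)
    calc (100 : ℝ) ≤ (2 : ℝ) ^ (7 : ℤ) := by norm_num
      _ ≤ (2 : ℝ) ^ (3 * (q : ℤ)) := by
        apply zpow_le_zpow_right₀ (by norm_num)
        omega
  · have e1 : ((2 ^ u : ℕ) : ℝ) = (2 : ℝ) ^ (u : ℤ) := by push_cast; rw [zpow_natCast]
    rw [e1, ← zpow_add₀ (by norm_num : (2 : ℝ) ≠ 0), ← zpow_add₀ (by norm_num : (2 : ℝ) ≠ 0)]
    apply zpow_le_zpow_right₀ (by norm_num)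
    omega
  · have e1 : ((2 ^ u : ℕ) : ℝ) = (2 : ℝ) ^ (u : ℤ) := by push_cast; rw [zpow_natCast]
    rw [e1, ← zpow_add₀ (by norm_num : (2 : ℝ) ≠ 0)]
    apply zpow_le_zpow_right₀ (by norm_num)
    omega
  · intro j hj
    have h1 := hnn j hj
    have h2 : {j' : ℕ | j' < 2 ^ u ∧ |sl τ u j - sl τ u j'| ≤ (2 : ℝ) ^ (-(q : ℤ))} =
        {j' : ℕ | j' < 2 ^ u ∧ |sl τ u j' - sl τ u j| ≤ (2 : ℝ) ^ (-(q : ℤ))} := by
      ext j'
      simp only [Set.mem_ofPred_eq, abs_sub_comm]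
    rw [h2]
    show ((nn τ u (sl τ u j) q : ℕ) : ℝ) ≤ m / 200
    linarith
  · intro j hj v hv hvu
    by_cases hvu' : v ≤ u
    · have hW : Wv τ u j v = Wt τ u ((2 : ℝ) ^ v) (sl τ u j) + 2 := by
        unfold Wv
        rw [if_pos hvu']
      rw [hW]
      have h2 : {j' : ℕ | j' < 2 ^ u ∧ |sl τ u j - sl τ u j'| ≤
            (2 : ℝ) ^ (-((Wt τ u ((2 : ℝ) ^ v) (sl τ u j) + 2 : ℕ) : ℤ))} =
          {j' : ℕ | j' < 2 ^ u ∧ |sl τ u j' - sl τ u j| ≤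
            (2 : ℝ) ^ (-((Wt τ u ((2 : ℝ) ^ v) (sl τ u j) + 2 : ℕ) : ℤ))} := by
        ext j'
        simp only [Set.mem_ofPred_eq, abs_sub_comm]
      rw [h2]
      show ((nn τ u (sl τ u j) (Wt τ u ((2 : ℝ) ^ v) (sl τ u j) + 2) : ℕ) : ℝ) ≤ _
      by_contra hcon
      rw [not_le] at hcon
      have h3 : (2 : ℝ) ≤ (2 : ℝ) ^ v := by
        calc (2 : ℝ) = (2 : ℝ) ^ 1 := by norm_num
          _ ≤ (2 : ℝ) ^ v := pow_le_pow_right₀ (by norm_num) (by omega)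
      have h4 := (hWT φ τ A 3 hG hA hgap (by norm_num) u ((2 : ℝ) ^ v) (sl τ u j) (by omega) h3).1 _ hcon.le
      omega
    · have h3 : {j' : ℕ | j' < 2 ^ u ∧ |sl τ u j - sl τ u j'| ≤ (2 : ℝ) ^ (-(Wv τ u j v : ℤ))}.ncard ≤
          2 ^ u := by
        calc _ ≤ (Set.Iio (2 ^ u)).ncard := by
              apply Set.ncard_le_ncard _ (Set.finite_Iio _)
              intro j' hj'
              exact hj'.1
          _ = 2 ^ u := by
              rw [Set.ncard_eq_toFinset_card']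
              simp
      calc (_ : ℝ) ≤ ((2 ^ u : ℕ) : ℝ) := by exact_mod_cast h3
        _ = (2 : ℝ) ^ u := by push_cast; rfl
        _ ≤ (2 : ℝ) ^ v := pow_le_pow_right₀ (by norm_num) (by omega)
  · intro j _
    unfold Wv
    rw [if_neg (by omega)]
  · -- `2^(u+1) δ ≤ 1`
    have e0 : (384 : ℝ) ≤ (2 : ℝ) ^ (9 : ℤ) := by norm_num
    rw [mul_div_assoc', div_le_one hη0]
    refine le_trans ?_ hηq
    calc (2 : ℝ) ^ (u + 1) * (384 * (2 : ℝ) ^ (-(4 * (q : ℤ)))) ≤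
          (2 : ℝ) ^ (u + 1) * ((2 : ℝ) ^ (9 : ℤ) * (2 : ℝ) ^ (-(4 * (q : ℤ)))) := by gcongr
      _ = (2 : ℝ) ^ (((u : ℤ) + 1) + (9 + (-(4 * (q : ℤ))))) := by
          rw [zpow_add₀ (by norm_num : (2 : ℝ) ≠ 0) ((u : ℤ) + 1), zpow_add₀ (by norm_num : (2 : ℝ) ≠ 0) 9]
          congr 1
      _ ≤ (2 : ℝ) ^ (-(q : ℤ)) := by
          apply zpow_le_zpow_right₀ (by norm_num)
          omega
  · intro x hx
    obtain ⟨x1, x2, x3⟩ := hRR x hx
    refine ⟨x1.trans ?_, x2, x3⟩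
    have h5 : (Hw c φ τ u (32 * q) (η / 2) k g x).ncard ≤
        {j : ℕ | j < 2 ^ u ∧ x ∈ {x | 7 * η / 16 < |Zc c φ τ u (32 * q) k j g x|}}.ncard := by
      apply Set.ncard_le_ncard
      · intro j hj
        refine ⟨hj.1, ?_⟩
        show 7 * η / 16 < |Zc c φ τ u (32 * q) k j g x|
        have := hj.2
        linarith
      · exact (Set.finite_Iio (2 ^ u)).subset (fun j hj => hj.1)
    exact_mod_cast h5

end Pool.Agent.Helper44.P3
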